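import Mathlib
import Pool.Agent.Q43.HQ.Spread

/-!
# The Tate conjecture for higher Chow groups of the varieties generated by abelian varieties which are
separated by the Galois closures of their CM fields

Let `K i` be finitely many CM fields with Weil numbers `π i` for `q = p ^ a` (any Newton polygons), and
let `A i` be the simple abelian varieties over the field with `q` elements with these Weil numbers
(Honda, Tate). We assume (`IsSeparated`)

* (`generated`) the powers of `π i` generate `K i`;
* (`typed`) the degree of `K i` is two, or it is four and `K i` contains no imaginary quadratic field,
  or it is twice an odd prime number, or it is larger than four and there is an odd function `s` on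
  the set of complex embeddings of `K i`, on which the automorphisms of `ℂ` act by signs (possibly
  `s = 0`), such that the odd functions orthogonal to `s` are an irreducible representation over `ℚ`
  of the group of automorphisms of `ℂ` (for instance if the Galois group of `K i` is large, or if `K i`
  is cyclic of 2-power degree);
* (`closure`) the Galois closures of `K i` and `K k`, `i ≠ k`, are different if both fields have degree
  at least four;
* (`quadratic`) no imaginary quadratic field is contained in two of the fields `K i`, and the norm of
  `π i` to an imaginary quadratic subfield of `K i` is not a power of the square root of `q`, up to a
  root of unity.

For example, the `A i` can be absolutely simple abelian surfaces, absolutely simple varieties of odd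
prime dimensions whose CM fields contain no imaginary quadratic field, with different Galois closures,
and ordinary elliptic curves with different CM fields, of any Newton polygons.

Over an algebraic closure of the field with `p` elements each abelian variety is isogenous to the
reduction of an abelian variety of CM type. So an abelian variety `Y` over a finite field is modelled
by a finite product of CM types `(E k, Φ k)` with Weil numbers in `E k` that satisfy the formula of
Shimura and Taniyama (`RedAV`, starting files). Let `𝒞` be the class of the abelian varieties `Y` which
are isogenous, over an algebraic closure, to a product of a supersingular abelian variety and of powers
of the `A i` (`IsSeparatedProduct`: each factor of `Y` is supersingular, or a power of its Frobenius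
endomorphism is the image of a power of some `π i` under an embedding of `K i`).

`Homology Ω V` are data of motivic homology `M X i j = H_i^M(X, ℚ(j)) = CH_j(X, i - 2 j) ⊗ ℚ` and of
`ℓ`-adic homology `E X i j = H_i(X, ℚ_ℓ(j))` (coefficients extended to `Ω`) of schemes `X` of finite
type over a finite field (the elements of `V`), with the Frobenius and the regulator. Let `𝒢` be the
smallest class (`Generated`) of such schemes that contains those with the homology groups of abelian
varieties in `𝒞` (`IsSeparatedAbelian`), that is closed under direct summands of finite sums of twists
of motives, and that contains all of a closed subscheme `Z` of `X`, `X` and `X ∖ Z` if it contains two
of them.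

Let `𝒮` (`Spread`) be the smallest class of schemes that contains `𝒢`, all open subschemes (with an
arbitrary complement) and all images under proper morphisms of its members, the schemes that are the
union of a closed and an open member, and the schemes whose motives are direct summands of sums of
twists of motives of members.

**The theorem** (for smooth `X` of dimension `d` one has `H_(2 d - i)(X, ℚ_ℓ(d - j)) = H^i(X, ℚ_ℓ(j))`
and `H_(2 d - i)^M(X, ℚ(d - j)) = H^i_M(X, ℚ(j))`).

* For all schemes `X` in `𝒢`, for instance the smooth open varieties in `𝒢`, and all `i`, `j` the
  invariant elements of `H_i(X, ℚ_ℓ(j))` are linear combinations of images of elements of the
  motivic homology (rational higher Chow groups): **all maps `c^(i, j)` are surjective**.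
* For all schemes `X` in `𝒮`, and all `i`, the invariant elements of `H_(2 i)(X, ℚ_ℓ(i))` are linear
  combinations of classes of cycles of dimension `i`, and the eigenvalue one of the Frobenius is
  semisimple (`IsOnto T X i`).

Properties of the theory of cycles that are used for the abelian varieties (`IsHomology`, starting
files): Poincaré duality, the formal properties of correspondences, the nilpotence of homologically
trivial correspondences (Kimura), the operation of the Frobenius endomorphism on higher Chow groups,
the vanishing of the higher rational `K`-groups of a finite field (Quillen), and the theorem of Tate
on divisors. The passage from the Tate conjecture to all degrees and to the class `Generated` is due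
to Soulé, Geisser, Kahn and Jannsen (starting files).

**The main point** is that the only multiplicative relations between the conjugates of the `π i` and `q`
are the trivial ones `π * conj π = q`, up to roots of unity: the angle rank is maximal
(`Pool.Agent.Q43.HQ.maximalAngleRank`). Let `L` be the Galois closure of all `K i`, `c` the complex
conjugation, and let `T i` be the equivariant map from the embeddings `φ` of `K i` to the
representation `ℚ ⊗ L^×` of the Galois group which takes `φ` to the class of `φ(π i)^2 / q`. A relation
is `∑ v i φ T i φ = 0` with odd functions `v i`. If the Galois group does not act on `v i` by signs then
for each element `κ` of the Galois group which acts nontrivially on `K i` there is a translate `v'` of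
`v i` such that it does not act by signs on `v' - v' ∘ κ`. So all `k` for which `K i` is not in the
Galois closure of `K k` are removed from the relation one after another; those whose Galois closure is
strictly larger are removed by averaging. There remains a relation to which the other fields contribute
elements on which the group acts by signs; the commutators and the elements of odd order fix them, and
one finds that the Galois group acts on all `φ(π i)^2 / q` by signs, so that the degree of `K i` is two.
Hence `v i = 0`, or `v i` comes from an imaginary quadratic subfield of `K i`, and then the norm of
`π i` to this field satisfies a relation.
-/

set_option autoImplicit false

namespace Pool.Agent.Results.MP_81b968_ag.SeparatedByClosures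

open Pool.Agent.W495.TA Pool.Agent.W495.FM Pool.Agent.Q43.HQ

/-- **The Tate conjecture for higher Chow groups for all varieties generated by abelian varieties with
simple factors which are separated by the Galois closures of their CM fields.** -/
theorem result (p : ℕ) [Fact p.Prime] (ν : PadicAlgCl p ≃+* ℂ) (Ω : Type) [Field Ω]
    [IsAlgClosed Ω] [CharZero Ω] (V : Type) (T : Homology Ω V) (hT : IsHomology T)
    (hW : HasWeights T) :
    (∀ X : V, Generated T (IsSeparatedAbelian p ν T) X → ∀ (i j : ℤ) (e : T.E X i j),
      T.frob X i j e = e → e ∈ Submodule.span Ω (Set.range (T.reg X i j))) ∧
    ∀ X : V, Spread T (Generated T (IsSeparatedAbelian p ν T)) X → ∀ i : ℤ, IsOnto T X i :=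
  ⟨fun _ hX i j e he => ((tb_separated hT hX) i j).1 e |>.1 he,
    fun _ hX i => onto_separated hT hW hX i⟩

end Pool.Agent.Results.MP_81b968_ag.SeparatedByClosures
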