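import Mathlib
import Pool.Agent.Q124.Rel.Main
import Pool.Agent.Q124.Lay.Count

/-!
# The Tate conjecture for higher Chow groups of products of abelian varieties and arbitrary smooth
varieties

Fix a prime `p`, a nonempty finite set `κ`, dimensions `g i ≥ 1` and, for each `i`, a symmetric
Newton polygon with slopes `s i j` and `1 - s i j` (`j < g i`, increasing in `j`, between `0` and
`1 / 2`, with integral break points: `IsPolygon (s i)`) whose smallest slope is at most `σ < 1 / 2`;
so it is any Newton polygon that is not the supersingular one. `NewtonStratum g s p a` is the set
of families of isogeny classes of abelian varieties `A_i` of dimension `g i` over the field with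
`p ^ a` elements having these Newton polygons (by the theorem of Honda and Tate it consists of
families of characteristic polynomials of Frobenius). Let `devSum (s i)`, `sqSum (s i)` be the sums of
the numbers `1 - 2 s i j` and of their squares, and let `0 < δ ≤ 1`, `δ₂ > 0` be numbers such that
`δ g i ≤ devSum (s i)` and `δ₂ g i ≤ sqSum (s i)` for all `i`. So `δ = δ₂ = 1` if the `A_i` are
ordinary.

We prove that the number of elements of `NewtonStratum g s p a` tends to infinity with `a`, and that
for all members, except for at most

  `C * a * p ^ (- a (1 - 2 σ) / 6) * |NewtonStratum g s p a|`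

(`C` depends on `p`, `g`, `s`, `σ` only), the following is true.

Let `𝔽` be the field with `Q = p ^ (a s')` elements, for any `s' > 0`, and let `𝒜` be the class of the
abelian varieties `A` over `𝔽` which are isogenous to a product of powers of the `A_i`, of any
dimension. Let `U` be **any** smooth variety over `𝔽` (open varieties are included), of dimension at
most `u`. Nothing is assumed on a compactification of `U`, on the motive of `U`, or on relations
between the Frobenius eigenvalues of `U` and of `A`; the exceptional set does not depend on `U`.

* (`TateTimes`) Let `e` be a number such that the slopes of the Frobenius eigenvalues of weight `w` on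
  the cohomology of `U` lie between `(w - e) / 2` and `(w + e) / 2`, for all `w`; `e = u` is always
  possible. Let `n` be a number with `(n + 1) δ > e`, so `n = u` if the `A_i` are ordinary, and let
  `B` be the `n`-th power of an element of `𝒜` in which all `A_i` occur. Then **the surjectivity of
  `c ^ {i, j}` for `A × U`, for all `A` in `𝒜` and all `i` and `j`, follows from the surjectivity for
  `B × U`**. More precisely, for `A × U` and the higher Chow groups `CH ^ j ( , m)`, `i = 2 j - m`, one
  only needs, for the same `m`, the groups `CH ^ {j'} (B × U, m)` with `j' ≤ j` and
  `2 j' + ⌊e⌋ ≤ 2 u + n`.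
* (`TateTimesNarrow`) The same is true, with the condition `2 j' ≤ 2 u + n`, for each `n ≥ 0` such that
  every Frobenius eigenvalue `ρ`, of weight `w`, on the cohomology of `U` satisfies one of the
  following conditions, where `b` is the smallest number greater than `n` with the parity of `w`: the
  slopes of `ρ` lie between `(w - e) / 2` and `(w + e) / 2` for some `e < b δ`; or the mean of
  `(2 λ - w) ^ 2`, `λ` the slopes of the conjugates of `ρ`, is smaller than `b δ₂`. For `n = 1` and
  `δ > 1 / 3` this is a condition on `w = 2` only if `U` is a surface; for `n = 0` one can take
  `B = Spec 𝔽`, so the surjectivity for `A × U` follows from the surjectivity for `U`.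

For example let `U` be a smooth curve and `δ > 1 / 2`. One can take `n = 1`, `e = 1`, and needs
`CH ^ j (B × U, m)` for `j ≤ 1` only, where the surjectivity is known (Tate; the groups are the Picard
group and the group of units). So Q1 is true for all products `A × U`, all `i` and all `j`. For the
varieties `U` of arbitrary dimension the theorem reduces Q1 for all `A × U` to one product, `B × U`;
it includes the case `U` smooth projective and `m = 0` of MP_60ec62_ag UniversalFactor.

The formal statement. `𝒱` is a class of smooth projective varieties closed under products, `C` their
Chow groups and `H` their `ℓ`-adic cohomology, with coefficients extended to an algebraic closure of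
`ℚ_ℓ`. The data `R` of `U` consist of its cohomology `N` and of a theory `R.T` on which
correspondences act, with regulator maps from `R.T (Y)` to `H (Y) ⊗ N`, the cohomology of `Y × U`: the
motivic cohomology groups `H ^ (2 j - m) (Y × U, ℚ(j)) = CH ^ j (Y × U, m)_ℚ`, for a fixed `m`, with
`Y` in `𝒱`. `IsRelative` states that the regulators are compatible with correspondences, and
the theorems of Deligne on the Frobenius eigenvalues of `U`: those on `H ^ b (U)` are Weil numbers
whose slopes are at most `u`. `IsPairFor` lists known facts on the abelian varieties `A` and `B`:
their cohomology and the one of `B × A` is generated by `H ^ 1`, where Frobenius has the given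
eigenvalues, and the theorem of Tate on divisors. `IsTate R π Q m c` is the surjectivity of
`c ^ {2 c - m, c}` for `Y × U`: the Frobenius invariants are combinations of regulators.

The proof. Let `v_α ⊗ h` be a component of a Tate class on `A × U`, `v_α` in an eigenbasis of `H(A)`
with eigenvalue `α` of Frobenius, a product of roots, and `h` an eigenvector in `H(U)` with eigenvalue
`ρ`, so `α ρ = Q ^ c`. Remove the pairs of roots with product `Q` from `α = Q ^ i α'`. The sieve shows
that the Galois group contains the automorphisms which replace one of the remaining `r` roots by its
complex conjugate, so some conjugate of the relation has the largest possible `p`-adic valuation,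
which gives `r δ ≤ e`, `r ≤ n`, and there is an eigenvector `v'` on `H ^ r (B)` with eigenvalue `α'`.
Then `v' ⊗ h` is a Tate class on `B × U`, hence a combination of regulators, and some class on `B × A`
which maps `v'` to `v_α` is an eigenvector of Frobenius with eigenvalue a power of `Q`, so by the same
theorem for `B × A` it is a combination of products of divisors, an algebraic correspondence.
-/

set_option autoImplicit false

namespace Pool.Agent.Results.MP_81b968_ag.UniversalFactor

open Polynomial Pool.Agent.Q124.Lay Pool.Agent.Q124.Rel

/-- The theorem for the family of isogeny classes over the field with `q` elements with the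
Frobenius polynomials `F i`, of dimension `g i` and slopes `s i j`. -/
def Holds {κ : Type} (g : κ → ℕ) (s : ∀ i, Fin (g i) → ℚ) (q : ℕ) (F : κ → ℤ[X]) : Prop :=
  ∀ δ δ₂ : ℝ, 0 < δ → δ ≤ 1 → 0 < δ₂ → (∀ i, δ * g i ≤ devSum (s i)) →
    (∀ i, δ₂ * g i ≤ sqSum (s i)) →
    HigherTateTheorem δ δ₂ q F

/-- **The Tate conjecture for higher Chow groups of `A × U`, for all smooth varieties `U`, from the one
of `B × U`, for the abelian varieties `A` outside of a thin subset of a Newton stratum.** -/
theorem result {κ : Type} [Fintype κ] [Nonempty κ] (p : ℕ) [Fact p.Prime]
    -- dimensions and Newton polygons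
    (g : κ → ℕ) (hg : ∀ i, 1 ≤ g i) (s : ∀ i, Fin (g i) → ℚ) (hs : ∀ i, IsPolygon (s i))
    -- the smallest slopes
    (σ : ℚ) (hσ : ∀ i (h : 0 < g i), s i ⟨0, h⟩ ≤ σ) (hσ2 : σ < 1 / 2) :
    (∀ N : ℕ, ∃ a₀ : ℕ, ∀ a, a₀ ≤ a →
      (NewtonStratum g s p a).Finite ∧ N ≤ (NewtonStratum g s p a).ncard) ∧
    ∃ C : ℝ, 0 < C ∧ ∀ a : ℕ, 0 < a →
      ({F ∈ NewtonStratum g s p a | ¬ Holds g s (p ^ a) F}.ncard : ℝ) ≤
        C * (a * (p : ℝ) ^ (-((a : ℝ) * (1 - 2 * σ) / 6))) *
          ((NewtonStratum g s p a).ncard : ℝ) :=
  count p g hg s hs σ hσ hσ2 (fun δ δ₂ q F => HigherTateTheorem δ δ₂ q F)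
    fun _ _ _ _ hq hδ0 hδ1 hδ₂ hB hM =>
    higherTateTheorem hB hM hδ0 hδ1 hδ₂ hq

end Pool.Agent.Results.MP_81b968_ag.UniversalFactor
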